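import Pool.Agent.helper70.M10.Defs

set_option autoImplicit false
set_option linter.all false

/-! Module V: levels of the boxes of a column (helper45). -/

open MvPolynomial Set Filter Topology

namespace Oct.N

open Oct

namespace V

theorem box_mem {c : Column} {j : ℕ} (hj : j < c.bx.length) : c.box j ∈ c.bx := by
  have : c.box j = c.bx[j] := by
    unfold Column.box
    exact List.getD_eq_getElem _ _ hj
  rw [this]
  exact List.getElem_mem hj

end V

section V
variable {ct : Cert} (h : Comb ct)
include h

theorem lv_lt {c : Column} (hc : c ∈ ct.cols) {j : ℕ} (hj : j < c.bx.length) (t : ℝ) :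
    (c.box j).lv (c.box j).lo t < (c.box j).lv (c.box j).hi t := by
  obtain ⟨hs, hal⟩ := h.boxS c hc _ (V.box_mem hj)
  unfold Box.lv
  have h1 : ((c.box j).lo : ℝ) < (c.box j).hi := by
    have : (c.box j).lo < (c.box j).hi := by
      unfold Box.lo Box.hi
      omega
    exact_mod_cast this
  have h2 : (0 : ℝ) < (c.box j).al := by exact_mod_cast hal
  have := mul_lt_mul_of_pos_left h1 h2
  linarith

/-- consecutive boxes -/
theorem lv_next {c : Column} (hc : c ∈ ct.cols) {j : ℕ} (hj : j + 1 < c.bx.length) {t : ℝ}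
    (ht : t ∈ Icc (0 : ℝ) 1) :
    (c.box j).lv (c.box j).lo t < (c.box (j + 1)).lv (c.box (j + 1)).lo t ∧
    (c.box (j + 1)).lv (c.box (j + 1)).lo t ≤ (c.box j).lv (c.box j).hi t ∧
    (c.box j).lv (c.box j).hi t < (c.box (j + 1)).lv (c.box (j + 1)).hi t := by
  rcases (h.vert c hc j hj).1 with hS | hJ
  · obtain ⟨e1, e2, e3⟩ := hS
    have e : (c.box j).lv (c.box j).hi t = (c.box (j + 1)).lv (c.box (j + 1)).lo t := by
      unfold Box.lv
      rw [e1, e2, e3]
    have a1 := lv_lt h hc (j := j) (by omega) t
    have a2 := lv_lt h hc (j := j + 1) hj t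
    exact ⟨by rw [← e]; exact a1, e.ge, by rw [e]; exact a2⟩
  · exact hJ.2.2 t ht.1 ht.2

omit h in
theorem V.same_lv {b b' : Box} (hS : Same b b') (t : ℝ) : b.lv b.hi t = b'.lv b'.lo t := by
  obtain ⟨e1, e2, e3⟩ := hS
  unfold Box.lv
  rw [e1, e2, e3]

/-- two boxes which are not consecutive are disjoint -/
theorem lv_far {c : Column} (hc : c ∈ ct.cols) {j k : ℕ} (hjk : j + 2 ≤ k) (hk : k < c.bx.length)
    {t : ℝ} (ht : t ∈ Icc (0 : ℝ) 1) :
    (c.box j).lv (c.box j).hi t < (c.box k).lv (c.box k).lo t := by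
  induction k, hjk using Nat.le_induction with
  | base =>
    have a1 := lv_next h hc (j := j) (by omega) ht
    have a2 := lv_next h hc (j := j + 1) hk ht
    rcases h.vert2 c hc j hk with hS | hS
    · rw [V.same_lv hS t]
      exact a2.1
    · rw [← V.same_lv hS t]
      exact a1.2.2
  | succ k hk' ih =>
    exact (ih (by omega)).trans (lv_next h hc (j := k) hk ht).1

/-- the boxes cover all the heights between the lowest and the highest level -/
theorem lv_find {c : Column} (hc : c ∈ ct.cols) {t z : ℝ} (ht : t ∈ Icc (0 : ℝ) 1)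
    (h1 : c.fb.lv c.fb.lo t ≤ z) (h2 : z ≤ c.lb.lv c.lb.hi t) :
    ∃ j < c.bx.length, (c.box j).lv (c.box j).lo t ≤ z ∧ z ≤ (c.box j).lv (c.box j).hi t := by
  have hlen : 0 < c.bx.length := List.length_pos_iff.2 (h.colR c hc).2.2.2
  have key : ∀ k, k < c.bx.length → z ≤ (c.box k).lv (c.box k).hi t →
      ∃ j < c.bx.length, (c.box j).lv (c.box j).lo t ≤ z ∧ z ≤ (c.box j).lv (c.box j).hi t := by
    intro k
    induction k with
    | zero => exact fun hk hz => ⟨0, hk, h1, hz⟩
    | succ k ih =>
      intro hk hz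
      by_cases hle : z ≤ (c.box k).lv (c.box k).hi t
      · exact ih (by omega) hle
      · exact ⟨k + 1, hk, (lv_next h hc hk ht).2.1.trans (not_le.1 hle).le, hz⟩
  exact key (c.bx.length - 1) (by omega) h2

/-- all the boxes are between the lowest and the highest level -/
theorem lv_range {c : Column} (hc : c ∈ ct.cols) {j : ℕ} (hj : j < c.bx.length) {t : ℝ}
    (ht : t ∈ Icc (0 : ℝ) 1) :
    c.fb.lv c.fb.lo t ≤ (c.box j).lv (c.box j).lo t ∧
    (c.box j).lv (c.box j).hi t ≤ c.lb.lv c.lb.hi t := by
  constructor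
  · induction j with
    | zero => exact le_rfl
    | succ j ih => exact (ih (by omega)).trans (lv_next h hc hj ht).1.le
  · have key : ∀ k, j + k < c.bx.length →
        (c.box j).lv (c.box j).hi t ≤ (c.box (j + k)).lv (c.box (j + k)).hi t := by
      intro k
      induction k with
      | zero => exact fun _ => le_rfl
      | succ k ih =>
        intro hk
        exact (ih (by omega)).trans (lv_next h hc (j := j + k) hk ht).2.2.le
    have := key (c.bx.length - 1 - j) (by omega)
    have e : j + (c.bx.length - 1 - j) = c.bx.length - 1 := by omega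
    rw [e] at this
    exact this

end V

end Oct.N
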